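import Mathlib

/-!
# Infinite groups without elements of order two as automorphism groups of tournaments

Every infinite group without elements of order two is the automorphism group of a tournament
whose automorphism group has at most seven orbits on the vertices.
-/

set_option autoImplicit false

namespace Pool.Agent.Results.MP_4ac3ef_co.SevenOrbits

universe u

/-- A tournament on the (possibly infinite) vertex set `V`: no loops, and for two distinct
vertices `x`, `y` exactly one of the arcs `(x, y)` and `(y, x)` is present. -/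
structure Tournament (V : Type u) where
  arc : V → V → Prop
  irrefl : ∀ x, ¬ arc x x
  arc_iff : ∀ x y, x ≠ y → (arc x y ↔ ¬ arc y x)

/-- The automorphism group of a tournament: all permutations of the vertices preserving the
arcs. -/
def Tournament.Aut {V : Type u} (T : Tournament V) : Subgroup (Equiv.Perm V) where
  carrier := {φ | ∀ x y, T.arc (φ x) (φ y) ↔ T.arc x y}
  one_mem' := by intro x y; simp
  mul_mem' := by
    intro φ ψ hφ hψ x y
    have h1 := hφ (ψ x) (ψ y)
    have h2 := hψ x y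
    simpa [Equiv.Perm.mul_apply] using h1.trans h2
  inv_mem' := by
    intro φ hφ x y
    have e : ∀ z, φ (φ⁻¹ z) = z := fun z => φ.apply_symm_apply z
    have h := hφ (φ⁻¹ x) (φ⁻¹ y)
    rw [e, e] at h
    exact h.symm

/-! ### Well-orders -/

section WellOrder

variable {W : Type u} [LinearOrder W] [WellFoundedLT W]

open Classical in
/-- A colouring which changes at every successor. -/
noncomputable def col : W → Bool :=
  WellFounded.fix (C := fun _ => Bool) (wellFounded_lt (α := W)) (fun x ih =>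
    if h : ∃ p, p ⋖ x then ! (ih h.choose h.choose_spec.lt) else true)

theorem col_succ (x y : W) (h : x ⋖ y) : col y = ! (col x) := by
  unfold col
  rw [WellFounded.fix_eq]
  have hex : ∃ p, p ⋖ y := ⟨x, h⟩
  rw [dif_pos hex]
  have : hex.choose = x := hex.choose_spec.unique_left h
  change (! (col hex.choose)) = ! (col x)
  rw [this]

theorem exists_between (x y : W) (hxy : x < y) (hc : col x = col y) :
    ∃ z, x < z ∧ z < y ∧ col z ≠ col x := by
  have hne : {z : W | x < z}.Nonempty := ⟨y, hxy⟩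
  set s := (wellFounded_lt (α := W)).min {z : W | x < z} hne with hs
  have hsm : x < s := (wellFounded_lt (α := W)).min_mem {z : W | x < z} hne
  have hcov : x ⋖ s := by
    refine ⟨hsm, ?_⟩
    intro c h1 h2
    exact (wellFounded_lt (α := W)).not_lt_min {z : W | x < z} h1 h2
  have hcs := col_succ x s hcov
  have hle : s ≤ y := by
    by_contra hcon
    exact (wellFounded_lt (α := W)).not_lt_min {z : W | x < z} hxy (not_le.1 hcon)
  have hsy : s ≠ y := by
    intro hh
    rw [hh] at hcs
    rw [hcs] at hc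
    cases h : col x <;> simp [h] at hc
  refine ⟨s, hsm, lt_of_le_of_ne hle hsy, ?_⟩
  rw [hcs]
  cases col x <;> simp

end WellOrder

/-- A surjective strictly monotone self-map of a well-order is the identity. -/
theorem eq_id_of_strictMono {W : Type u} [LinearOrder W] [WellFoundedLT W] (f : W → W)
    (hf : StrictMono f) (hs : Function.Surjective f) (x : W) : f x = x := by
  have h : StrictMono.orderIsoOfSurjective f hf hs = OrderIso.refl W := Subsingleton.elim _ _
  have h2 : (StrictMono.orderIsoOfSurjective f hf hs) x = f x := rfl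
  rw [← h2, h]
  rfl

/-! ### Irredundant generating sets -/

section Gen

variable {G : Type u} [Group G] [LinearOrder G] [WellFoundedLT G]

/-- The irredundant generating set attached to a well-order. -/
def gens (G : Type u) [Group G] [LinearOrder G] : Set G :=
  {g | g ∉ Subgroup.closure {h : G | h < g}}

theorem closure_gens : Subgroup.closure (gens G) = ⊤ := by
  rw [eq_top_iff]
  intro g _
  induction g using (wellFounded_lt (α := G)).induction with
  | _ g ih =>
    by_cases hg : g ∈ gens G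
    · exact Subgroup.subset_closure hg
    · have h1 : g ∈ Subgroup.closure {h : G | h < g} := by
        by_contra hcon
        exact hg hcon
      have h2 : Subgroup.closure {h : G | h < g} ≤ Subgroup.closure (gens G) := by
        rw [Subgroup.closure_le]
        intro h hh
        exact ih h hh trivial
      exact h2 h1

omit [WellFoundedLT G] in
theorem no_rel_max (w x y z : G) (hx : x ∈ gens G) (hw : w < x) (hy : y < x) (hz : z < x)
    (h : w⁻¹ * x = y⁻¹ * z) : False := by
  apply hx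
  have hxe : x = w * (y⁻¹ * z) := by rw [← h]; group
  rw [hxe]
  have hsub : ∀ t, t < x → t ∈ Subgroup.closure {h : G | h < x} := fun t ht =>
    Subgroup.subset_closure ht
  rw [← hxe]
  have := mul_mem (hsub w hw) (mul_mem (inv_mem (hsub y hy)) (hsub z hz))
  rw [← hxe] at this
  exact this

omit [WellFoundedLT G] in
theorem no_rel (w x y z : G) (hw : w ∈ gens G) (hx : x ∈ gens G) (hy : y ∈ gens G)
    (hz : z ∈ gens G) (hwx : w ≠ x) (hwy : w ≠ y) (hwz : w ≠ z) (hxy : x ≠ y) (hxz : x ≠ z)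
    (hyz : y ≠ z) (h : w⁻¹ * x = y⁻¹ * z) : False := by
  have h' : y⁻¹ * z = w⁻¹ * x := h.symm
  have hi : x⁻¹ * w = z⁻¹ * y := by
    have := congrArg (fun t => t⁻¹) h
    simpa [mul_inv_rev] using this
  have hi' : z⁻¹ * y = x⁻¹ * w := hi.symm
  rcases lt_or_gt_of_ne hwx with h1 | h1 <;> rcases lt_or_gt_of_ne hyz with h2 | h2
  · rcases lt_or_gt_of_ne hxz with h3 | h3
    · exact no_rel_max y z w x hz h2 (h1.trans h3) h3 h'
    · exact no_rel_max w x y z hx h1 (h2.trans h3) h3 h
  · rcases lt_or_gt_of_ne hxy with h3 | h3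
    · exact no_rel_max z y x w hy h2 h3 (h1.trans h3) hi'
    · exact no_rel_max w x y z hx h1 h3 (h2.trans h3) h
  · rcases lt_or_gt_of_ne hwz with h3 | h3
    · exact no_rel_max y z w x hz h2 h3 (h1.trans h3) h'
    · exact no_rel_max x w z y hw h1 h3 (h2.trans h3) hi
  · rcases lt_or_gt_of_ne hwy with h3 | h3
    · exact no_rel_max z y x w hy h2 (h1.trans h3) h3 hi'
    · exact no_rel_max x w z y hw h1 (h2.trans h3) h3 hi

end Gen

/-! ### The rigidity lemma -/

/-- Data on a group: two sets `A`, `B` and the set `D` recording a well-order between them. -/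
structure Frame (G : Type u) [Group G] where
  A : Set G
  B : Set G
  D : Set G
  lt : LinearOrder G
  wf : @WellFoundedLT G lt.toLT
  gen : Subgroup.closure (A ∪ B) = ⊤
  sepA : ∀ a ∈ A, ∀ a' ∈ A, lt.lt a a' → ∃ b ∈ B, lt.lt a b ∧ lt.lt b a'
  sepB : ∀ b ∈ B, ∀ b' ∈ B, lt.lt b b' → ∃ a ∈ A, lt.lt b a ∧ lt.lt a b'
  disj : ∀ a ∈ A, ∀ b ∈ B, a ≠ b
  iffD : ∀ a ∈ A, ∀ b ∈ B, (a⁻¹ * b ∈ D ↔ lt.lt a b)

theorem exists_frame (G : Type u) [Group G] : Nonempty (Frame G) := by
  classical
  obtain ⟨lo, wf⟩ := exists_wellFoundedLT (α := G)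
  let K : Set G := gens G
  let c : K → Bool := col
  let A : Set G := {g | ∃ h : g ∈ K, c ⟨g, h⟩ = true}
  let B : Set G := {g | ∃ h : g ∈ K, c ⟨g, h⟩ = false}
  have hAK : ∀ a ∈ A, a ∈ gens G := fun a ha => ha.1
  have hBK : ∀ a ∈ B, a ∈ gens G := fun a ha => ha.1
  have disj : ∀ a ∈ A, ∀ b ∈ B, a ≠ b := by
    rintro a ⟨ha, hca⟩ b ⟨hb, hcb⟩ rfl
    rw [hca] at hcb
    exact absurd hcb (by decide)
  refine ⟨⟨A, B, {d | ∃ a ∈ A, ∃ b ∈ B, a < b ∧ d = a⁻¹ * b}, lo, wf, ?_, ?_, ?_, disj, ?_⟩⟩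
  · have : A ∪ B = gens G := by
      ext g
      constructor
      · rintro (h | h)
        · exact h.1
        · exact h.1
      · intro h
        cases hc : c ⟨g, h⟩ with
        | true => exact Or.inl ⟨h, hc⟩
        | false => exact Or.inr ⟨h, hc⟩
    rw [this]
    exact closure_gens
  · rintro a ⟨ha, hca⟩ a' ⟨ha', hca'⟩ hlt
    obtain ⟨z, hz1, hz2, hz3⟩ := exists_between (⟨a, ha⟩ : K) ⟨a', ha'⟩ hlt
      (by rw [show col (⟨a, ha⟩ : K) = true from hca, show col (⟨a', ha'⟩ : K) = true from hca'])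
    refine ⟨z.1, ⟨z.2, ?_⟩, hz1, hz2⟩
    rw [show col (⟨a, ha⟩ : K) = true from hca] at hz3
    exact Bool.eq_false_of_not_eq_true hz3
  · rintro a ⟨ha, hca⟩ a' ⟨ha', hca'⟩ hlt
    obtain ⟨z, hz1, hz2, hz3⟩ := exists_between (⟨a, ha⟩ : K) ⟨a', ha'⟩ hlt
      (by rw [show col (⟨a, ha⟩ : K) = false from hca,
        show col (⟨a', ha'⟩ : K) = false from hca'])
    refine ⟨z.1, ⟨z.2, ?_⟩, hz1, hz2⟩
    rw [show col (⟨a, ha⟩ : K) = false from hca] at hz3
    exact Bool.eq_true_of_not_eq_false hz3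
  · intro a ha b hb
    constructor
    · rintro ⟨a', ha', b', hb', hlt, he⟩
      by_cases h1 : a = a'
      · subst h1
        have : b = b' := mul_left_cancel he
        subst this
        exact hlt
      · by_cases h2 : b = b'
        · subst h2
          exact absurd (inv_injective (mul_right_cancel he)) h1
        · exact absurd he (fun he => no_rel a b a' b' (hAK a ha) (hBK b hb) (hAK a' ha')
            (hBK b' hb') (disj a ha b hb) h1 (disj a ha b' hb')
            (fun h => disj a' ha' b hb h.symm) h2 (disj a' ha' b' hb') he)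
    · intro hlt
      exact ⟨a, ha, b, hb, hlt, rfl⟩

/-- A surjection preserving the three relations of a frame is a left translation. -/
theorem frame_rigid {G : Type u} [Group G] (F : Frame G) (f : G → G)
    (hs : Function.Surjective f)
    (hA : ∀ x y, (f x)⁻¹ * f y ∈ F.A ↔ x⁻¹ * y ∈ F.A)
    (hB : ∀ x y, (f x)⁻¹ * f y ∈ F.B ↔ x⁻¹ * y ∈ F.B)
    (hD : ∀ x y, (f x)⁻¹ * f y ∈ F.D ↔ x⁻¹ * y ∈ F.D) (x : G) : f x = f 1 * x := by
  classical
  obtain ⟨A, B, D, lo, wf, gen, sepA, sepB, disj, iffD⟩ := F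
  simp only at hA hB hD
  -- the key point
  have key : ∀ x : G, (∀ a ∈ A, f (x * a) = f x * a) ∧ (∀ b ∈ B, f (x * b) = f x * b) := by
    intro x
    have mA : ∀ a ∈ A, (f x)⁻¹ * f (x * a) ∈ A := by
      intro a ha
      rw [hA, inv_mul_cancel_left]
      exact ha
    have mB : ∀ a ∈ B, (f x)⁻¹ * f (x * a) ∈ B := by
      intro a ha
      rw [hB, inv_mul_cancel_left]
      exact ha
    let α : A → A := fun a => ⟨(f x)⁻¹ * f (x * a.1), mA a.1 a.2⟩
    let β : B → B := fun b => ⟨(f x)⁻¹ * f (x * b.1), mB b.1 b.2⟩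
    have sα : Function.Surjective α := by
      rintro ⟨a', ha'⟩
      obtain ⟨y, hy⟩ := hs (f x * a')
      have h1 : (f x)⁻¹ * f y = a' := by rw [hy]; group
      have h2 : x⁻¹ * y ∈ A := by
        rw [← hA, h1]
        exact ha'
      refine ⟨⟨x⁻¹ * y, h2⟩, ?_⟩
      apply Subtype.ext
      change (f x)⁻¹ * f (x * (x⁻¹ * y)) = a'
      rw [mul_inv_cancel_left, h1]
    have sβ : Function.Surjective β := by
      rintro ⟨a', ha'⟩
      obtain ⟨y, hy⟩ := hs (f x * a')
      have h1 : (f x)⁻¹ * f y = a' := by rw [hy]; group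
      have h2 : x⁻¹ * y ∈ B := by
        rw [← hB, h1]
        exact ha'
      refine ⟨⟨x⁻¹ * y, h2⟩, ?_⟩
      apply Subtype.ext
      change (f x)⁻¹ * f (x * (x⁻¹ * y)) = a'
      rw [mul_inv_cancel_left, h1]
    have ord : ∀ (a : A) (b : B), (α a).1 < (β b).1 ↔ a.1 < b.1 := by
      intro a b
      rw [← iffD (α a).1 (α a).2 (β b).1 (β b).2, ← iffD a.1 a.2 b.1 b.2]
      change ((f x)⁻¹ * f (x * a.1))⁻¹ * ((f x)⁻¹ * f (x * b.1)) ∈ D ↔ _
      have e1 : ((f x)⁻¹ * f (x * a.1))⁻¹ * ((f x)⁻¹ * f (x * b.1))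
          = (f (x * a.1))⁻¹ * f (x * b.1) := by group
      have e2 : (x * a.1)⁻¹ * (x * b.1) = a.1⁻¹ * b.1 := by group
      rw [e1, hD, e2]
    have mα : StrictMono α := by
      intro a a' hlt
      obtain ⟨b, hb, h1, h2⟩ := sepA a.1 a.2 a'.1 a'.2 hlt
      have h3 : (α a).1 < (β ⟨b, hb⟩).1 := (ord a ⟨b, hb⟩).2 h1
      have h4 : ¬ (α a').1 < (β ⟨b, hb⟩).1 := fun hh =>
        absurd ((ord a' ⟨b, hb⟩).1 hh) (not_lt.2 h2.le)
      change (α a).1 < (α a').1
      exact lt_of_lt_of_le h3 (not_lt.1 h4)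
    have mβ : StrictMono β := by
      intro b b' hlt
      obtain ⟨a, ha, h1, h2⟩ := sepB b.1 b.2 b'.1 b'.2 hlt
      have h3 : (α ⟨a, ha⟩).1 < (β b').1 := (ord ⟨a, ha⟩ b').2 h2
      have h4 : ¬ (α ⟨a, ha⟩).1 < (β b).1 := fun hh =>
        absurd ((ord ⟨a, ha⟩ b).1 hh) (not_lt.2 h1.le)
      change (β b).1 < (β b').1
      exact lt_of_le_of_lt (not_lt.1 h4) h3
    constructor
    · intro a ha
      have h := eq_id_of_strictMono α mα sα ⟨a, ha⟩
      have h2 : (f x)⁻¹ * f (x * a) = a := congrArg Subtype.val h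
      rw [← h2, mul_inv_cancel_left, h2]
    · intro a ha
      have h := eq_id_of_strictMono β mβ sβ ⟨a, ha⟩
      have h2 : (f x)⁻¹ * f (x * a) = a := congrArg Subtype.val h
      rw [← h2, mul_inv_cancel_left, h2]
  have all : ∀ h : G, ∀ x : G, f (x * h) = f x * h := by
    intro h
    have hmem : h ∈ Subgroup.closure (A ∪ B) := by rw [gen]; trivial
    induction hmem using Subgroup.closure_induction with
    | mem k hk =>
      intro x
      rcases hk with hk | hk
      · exact (key x).1 k hk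
      · exact (key x).2 k hk
    | one => intro x; simp
    | mul a b _ _ iha ihb =>
      intro x
      rw [← mul_assoc, ihb, iha, mul_assoc]
    | inv a _ ih =>
      intro x
      have h1 := ih (x * a⁻¹)
      rw [inv_mul_cancel_right] at h1
      rw [h1, mul_inv_cancel_right]
  have := all x 1
  rwa [one_mul] at this

/-! ### The tournament -/

/-- Which of the four copies of the group are dominated by the three fixed vertices. -/
def out (i : Fin 3) (c : Fin 4) : Bool :=
  (i == 1 && (c == 0 || c == 1)) || (i == 2 && (c == 0 || c == 2))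

theorem out_zero : ∀ c : Fin 4, out 0 c = false := by decide

theorem out_pos : ∀ i : Fin 3, i ≠ 0 → out i 0 = true := by decide

theorem fin3_pos : ∀ i : Fin 3, 0 < i → i = 1 ∨ i = 2 := by decide

theorem fin3_pair : ∀ j k : Fin 3, 0 < j → j < k → j = 1 ∧ k = 2 := by decide

theorem out_inj : ∀ c d : Fin 4, (out 1 d = true ↔ out 1 c = true) →
    (out 2 d = true ↔ out 2 c = true) → d = c := by decide

/-- The relations between the copies `c < d`. -/
def rel {G : Type u} [Group G] (F : Frame G) (c d : Fin 4) : Set G :=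
  if c = 0 ∧ d = 2 then F.A else if c = 1 ∧ d = 3 then F.B else
    if c = 0 ∧ d = 3 then F.D else {1}

/-- The arcs of the tournament. -/
def arcs {G : Type u} [Group G] (F : Frame G) (P : Set G) :
    (Fin 3 ⊕ (Fin 4 × G)) → (Fin 3 ⊕ (Fin 4 × G)) → Prop
  | .inl i, .inl j => i < j
  | .inl i, .inr (c, _) => out i c = true
  | .inr (c, _), .inl i => out i c = false
  | .inr (c, x), .inr (d, y) => (c = d ∧ x⁻¹ * y ∈ P) ∨ (c < d ∧ x⁻¹ * y ∈ rel F c d) ∨
      (d < c ∧ y⁻¹ * x ∉ rel F d c)

/-- The tournament attached to a frame and an orientation `P`. -/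
def tour {G : Type u} [Group G] (F : Frame G) (P : Set G) (h1 : (1 : G) ∉ P)
    (hP : ∀ g : G, g ≠ 1 → (g ∈ P ↔ g⁻¹ ∉ P)) : Tournament (Fin 3 ⊕ (Fin 4 × G)) where
  arc := arcs F P
  irrefl := by
    rintro (i | ⟨c, x⟩) h
    · exact lt_irrefl i h
    · rcases h with h | h | h
      · exact h1 (by simpa using h.2)
      · exact lt_irrefl c h.1
      · exact lt_irrefl c h.1
  arc_iff := by
    rintro (i | ⟨c, x⟩) (j | ⟨d, y⟩) hne
    · have hij : i ≠ j := fun h => hne (by rw [h])
      change i < j ↔ ¬ j < i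
      rcases lt_or_gt_of_ne hij with h | h
      · exact ⟨fun _ => not_lt.2 h.le, fun _ => h⟩
      · exact ⟨fun h' => absurd h' (not_lt.2 h.le), fun h' => absurd h h'⟩
    · change out i d = true ↔ ¬ (out i d = false)
      cases out i d <;> simp
    · change out j c = false ↔ ¬ (out j c = true)
      cases out j c <;> simp
    · change (c = d ∧ x⁻¹ * y ∈ P) ∨ (c < d ∧ x⁻¹ * y ∈ rel F c d) ∨
        (d < c ∧ y⁻¹ * x ∉ rel F d c) ↔ ¬ ((d = c ∧ y⁻¹ * x ∈ P) ∨
          (d < c ∧ y⁻¹ * x ∈ rel F d c) ∨ (c < d ∧ x⁻¹ * y ∉ rel F c d))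
      rcases lt_trichotomy c d with h | h | h
      · have n1 : ¬ c = d := ne_of_lt h
        have n2 : ¬ d = c := (ne_of_lt h).symm
        have n3 : ¬ d < c := not_lt.2 h.le
        simp only [h, n1, n2, n3, false_and, false_or, true_and, or_false, not_not]
      · subst h
        have hxy : x ≠ y := fun hh => hne (by rw [hh])
        have hg : x⁻¹ * y ≠ 1 := fun hh => hxy (inv_mul_eq_one.1 hh)
        have := hP _ hg
        rw [mul_inv_rev, inv_inv] at this
        simp only [lt_irrefl, false_and, or_false, true_and]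
        exact this
      · have n1 : ¬ c = d := (ne_of_lt h).symm
        have n2 : ¬ d = c := ne_of_lt h
        have n3 : ¬ c < d := not_lt.2 h.le
        simp only [h, n1, n2, n3, false_and, false_or, true_and, or_false]

section Main

variable {G : Type u} [Group G] (F : Frame G) (P : Set G) (h1 : (1 : G) ∉ P)
  (hP : ∀ g : G, g ≠ 1 → (g ∈ P ↔ g⁻¹ ∉ P))

/-- Left translation by `g` on the vertices. -/
def trans (g : G) : Equiv.Perm (Fin 3 ⊕ (Fin 4 × G)) :=
  Equiv.sumCongr (Equiv.refl _) (Equiv.prodCongr (Equiv.refl _) (Equiv.mulLeft g))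

theorem trans_inl (g : G) (i : Fin 3) : trans g (.inl i) = .inl i := rfl

theorem trans_inr (g : G) (c : Fin 4) (x : G) : trans g (.inr (c, x)) = .inr (c, g * x) := rfl

theorem trans_mem (g : G) : trans g ∈ (tour F P h1 hP).Aut := by
  rintro (i | ⟨c, x⟩) (j | ⟨d, y⟩)
  · exact Iff.rfl
  · exact Iff.rfl
  · exact Iff.rfl
  · have e1 : (g * x)⁻¹ * (g * y) = x⁻¹ * y := by group
    have e2 : (g * y)⁻¹ * (g * x) = y⁻¹ * x := by group
    change (c = d ∧ (g * x)⁻¹ * (g * y) ∈ P) ∨ (c < d ∧ (g * x)⁻¹ * (g * y) ∈ rel F c d) ∨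
        (d < c ∧ (g * y)⁻¹ * (g * x) ∉ rel F d c) ↔ (c = d ∧ x⁻¹ * y ∈ P) ∨
        (c < d ∧ x⁻¹ * y ∈ rel F c d) ∨ (d < c ∧ y⁻¹ * x ∉ rel F d c)
    rw [e1, e2]

/-- The homomorphism from the group to the automorphism group. -/
def hom : G →* (tour F P h1 hP).Aut where
  toFun g := ⟨trans g, trans_mem F P h1 hP g⟩
  map_one' := by
    apply Subtype.ext
    apply Equiv.ext
    rintro (i | ⟨c, x⟩)
    · rfl
    · change (Sum.inr (c, 1 * x) : Fin 3 ⊕ (Fin 4 × G)) = .inr (c, x)
      rw [one_mul]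
  map_mul' a b := by
    apply Subtype.ext
    apply Equiv.ext
    rintro (i | ⟨c, x⟩)
    · rfl
    · change (Sum.inr (c, (a * b) * x) : Fin 3 ⊕ (Fin 4 × G)) = .inr (c, a * (b * x))
      rw [mul_assoc]

theorem hom_injective : Function.Injective (hom F P h1 hP) := by
  intro a b hab
  have h2 : trans a = trans b := congrArg Subtype.val hab
  have h3 := congrArg (fun e : Equiv.Perm (Fin 3 ⊕ (Fin 4 × G)) => e (.inr (0, 1))) h2
  simp only [trans_inr, mul_one] at h3
  have h4 := Sum.inr_injective h3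
  exact congrArg Prod.snd h4

theorem infinite_out [Infinite G] (w : Fin 3 ⊕ (Fin 4 × G)) (hw : w ≠ .inl 0) :
    {w' | (tour F P h1 hP).arc w w'}.Infinite := by
  rcases w with i | ⟨c, x⟩
  · have hi : out i 0 = true := out_pos i (fun h => hw (by rw [h]))
    have : Set.range (fun x : G => (Sum.inr ((0 : Fin 4), x) : Fin 3 ⊕ (Fin 4 × G))) ⊆
        {w' | (tour F P h1 hP).arc (.inl i) w'} := by
      rintro _ ⟨x, rfl⟩
      exact hi
    refine Set.Infinite.mono this (Set.infinite_range_of_injective ?_)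
    intro a b hab
    exact congrArg Prod.snd (Sum.inr_injective hab)
  · have hPi : P.Infinite := by
      intro hf
      have hu : (Set.univ : Set G) ⊆ (P ∪ P⁻¹) ∪ {1} := by
        intro g _
        by_cases hg : g = 1
        · exact Or.inr hg
        · left
          by_cases hgP : g ∈ P
          · exact Or.inl hgP
          · right
            have := hP g⁻¹ (inv_ne_one.2 hg)
            rw [inv_inv] at this
            exact this.2 hgP
      exact Set.infinite_univ ((hf.union hf.inv |>.union (Set.finite_singleton 1)).subset hu)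
    have : (fun p : G => (Sum.inr (c, x * p) : Fin 3 ⊕ (Fin 4 × G))) '' P ⊆
        {w' | (tour F P h1 hP).arc (.inr (c, x)) w'} := by
      rintro _ ⟨p, hp, rfl⟩
      refine Or.inl ⟨rfl, ?_⟩
      rw [inv_mul_cancel_left]
      exact hp
    refine Set.Infinite.mono this (hPi.image ?_)
    intro a _ b _ hab
    have := congrArg Prod.snd (Sum.inr_injective hab)
    exact mul_left_cancel this

theorem finite_out : {w' | (tour F P h1 hP).arc (.inl 0) w'}.Finite := by
  refine (Set.toFinite {(Sum.inl 1 : Fin 3 ⊕ (Fin 4 × G)), .inl 2}).subset ?_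
  rintro (i | ⟨c, x⟩) h
  · rcases fin3_pos i h with rfl | rfl
    · exact Or.inl rfl
    · exact Or.inr rfl
  · have h' : out 0 c = true := h
    rw [out_zero] at h'
    exact absurd h' (by decide)

theorem fix_zero [Infinite G] (φ : Equiv.Perm (Fin 3 ⊕ (Fin 4 × G)))
    (hφ : φ ∈ (tour F P h1 hP).Aut) : φ (.inl 0) = .inl 0 := by
  by_contra hne
  apply infinite_out F P h1 hP _ hne
  refine ((finite_out F P h1 hP).image φ).subset ?_
  intro w hw
  refine ⟨φ.symm w, ?_, φ.apply_symm_apply w⟩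
  have h := hφ (.inl 0) (φ.symm w)
  rw [φ.apply_symm_apply] at h
  exact h.1 hw

theorem fix_inl [Infinite G] (φ : Equiv.Perm (Fin 3 ⊕ (Fin 4 × G)))
    (hφ : φ ∈ (tour F P h1 hP).Aut) (i : Fin 3) : φ (.inl i) = .inl i := by
  have h0 := fix_zero F P h1 hP φ hφ
  -- the images of the vertices 1 and 2
  have im : ∀ i : Fin 3, 0 < i → ∃ j : Fin 3, 0 < j ∧ φ (.inl i) = .inl j := by
    intro i hi
    have h := (hφ (.inl 0) (.inl i)).2 hi
    rw [h0] at h
    rcases hw : φ (.inl i) with j | ⟨c, x⟩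
    · rw [hw] at h
      exact ⟨j, h, rfl⟩
    · rw [hw] at h
      have h' : out 0 c = true := h
      rw [out_zero] at h'
      exact absurd h' (by decide)
  obtain ⟨j, hj, e1⟩ := im 1 (by decide)
  obtain ⟨k, hk, e2⟩ := im 2 (by decide)
  have h12 : j < k := by
    have h := (hφ (.inl 1) (.inl 2)).2 (by change (1 : Fin 3) < 2; decide)
    rw [e1, e2] at h
    exact h
  have hj1 : j = 1 ∧ k = 2 := fin3_pair j k hj h12
  obtain ⟨rfl, rfl⟩ := hj1
  fin_cases i
  · exact h0
  · exact e1
  · exact e2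

theorem fix_copy [Infinite G] (φ : Equiv.Perm (Fin 3 ⊕ (Fin 4 × G)))
    (hφ : φ ∈ (tour F P h1 hP).Aut) (c : Fin 4) (x : G) :
    ∃ y, φ (.inr (c, x)) = .inr (c, y) := by
  rcases hw : φ (.inr (c, x)) with j | ⟨d, y⟩
  · exfalso
    have := fix_inl F P h1 hP φ hφ j
    rw [← hw] at this
    have h2 := φ.injective this
    rw [hw] at h2
    exact absurd h2 (by simp)
  · have ho : ∀ i : Fin 3, (out i d = true ↔ out i c = true) := by
      intro i
      have h := hφ (.inl i) (.inr (c, x))
      rw [fix_inl F P h1 hP φ hφ i, hw] at h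
      exact h
    have hdc : d = c := out_inj c d (ho 1) (ho 2)
    subst hdc
    exact ⟨y, rfl⟩

theorem hom_surjective [Infinite G] : Function.Surjective (hom F P h1 hP) := by
  rintro ⟨φ, hφ⟩
  choose f hf using fix_copy F P h1 hP φ hφ
  have hrel : ∀ c d : Fin 4, c < d → ∀ x y : G,
      ((f c x)⁻¹ * f d y ∈ rel F c d ↔ x⁻¹ * y ∈ rel F c d) := by
    intro c d hcd x y
    have h := hφ (.inr (c, x)) (.inr (d, y))
    rw [hf, hf] at h
    have n1 : ¬ c = d := ne_of_lt hcd
    have n3 : ¬ d < c := not_lt.2 hcd.le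
    have h' : ((c = d ∧ (f c x)⁻¹ * (f d y) ∈ P) ∨ (c < d ∧ (f c x)⁻¹ * (f d y) ∈ rel F c d) ∨
        (d < c ∧ (f d y)⁻¹ * (f c x) ∉ rel F d c)) ↔ ((c = d ∧ x⁻¹ * y ∈ P) ∨
        (c < d ∧ x⁻¹ * y ∈ rel F c d) ∨ (d < c ∧ y⁻¹ * x ∉ rel F d c)) := h
    simpa only [hcd, n1, n3, false_and, false_or, true_and, or_false] using h'
  have e01 : ∀ x, f 1 x = f 0 x := by
    intro x
    have h := (hrel 0 1 (by decide) x x).2 (by simp [rel])
    have h' : (f 0 x)⁻¹ * f 1 x = 1 := by simpa [rel] using h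
    exact (inv_mul_eq_one.1 h').symm
  have e12 : ∀ x, f 2 x = f 1 x := by
    intro x
    have h := (hrel 1 2 (by decide) x x).2 (by simp [rel])
    have h' : (f 1 x)⁻¹ * f 2 x = 1 := by simpa [rel] using h
    exact (inv_mul_eq_one.1 h').symm
  have e23 : ∀ x, f 3 x = f 2 x := by
    intro x
    have h := (hrel 2 3 (by decide) x x).2 (by simp [rel])
    have h' : (f 2 x)⁻¹ * f 3 x = 1 := by simpa [rel] using h
    exact (inv_mul_eq_one.1 h').symm
  have e2 : ∀ x, f 2 x = f 0 x := fun x => (e12 x).trans (e01 x)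
  have e3 : ∀ x, f 3 x = f 0 x := fun x => (e23 x).trans (e2 x)
  have hs : Function.Surjective (f 0) := by
    intro y
    have hinv : φ⁻¹ ∈ (tour F P h1 hP).Aut := inv_mem hφ
    obtain ⟨x, hx⟩ := fix_copy F P h1 hP φ⁻¹ hinv 0 y
    refine ⟨x, ?_⟩
    have h : φ (.inr (0, x)) = .inr (0, y) := by
      rw [← hx]
      exact φ.apply_symm_apply _
    rw [hf] at h
    exact congrArg Prod.snd (Sum.inr_injective h)
  have hmain := frame_rigid F (f 0) hs
    (fun x y => by
      have := hrel 0 2 (by decide) x y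
      rw [e2] at this
      simpa [rel] using this)
    (fun x y => by
      have := hrel 1 3 (by decide) x y
      rw [e3, e01] at this
      simpa [rel] using this)
    (fun x y => by
      have := hrel 0 3 (by decide) x y
      rw [e3] at this
      simpa [rel] using this)
  refine ⟨f 0 1, ?_⟩
  apply Subtype.ext
  apply Equiv.ext
  have hall : ∀ c x, f c x = f 0 x := by
    intro c x
    fin_cases c
    · rfl
    · exact e01 x
    · exact e2 x
    · exact e3 x
  rintro (i | ⟨c, x⟩)
  · exact (fix_inl F P h1 hP φ hφ i).symm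
  · change (Sum.inr (c, f 0 1 * x) : Fin 3 ⊕ (Fin 4 × G)) = φ (.inr (c, x))
    rw [hf, ← hmain x, hall c x]

end Main

/-- **Main theorem.** Let `G` be an infinite group without elements of order two. Then there is
a tournament `T` whose automorphism group is isomorphic to `G` and has at most seven orbits on
the vertices of `T`. -/
theorem result (G : Type u) [Group G] [Infinite G] (hG : ∀ g : G, orderOf g ≠ 2) :
    ∃ (V : Type u) (T : Tournament V), Nonempty (T.Aut ≃* G) ∧
      Cardinal.mk (MulAction.orbitRel.Quotient T.Aut V) ≤ 7 := by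
  obtain ⟨F⟩ := exists_frame G
  let lo : LinearOrder G := F.lt
  let P : Set G := {g | g < g⁻¹}
  have h1 : (1 : G) ∉ P := by
    intro h
    have h' : (1 : G) < 1⁻¹ := h
    rw [inv_one] at h'
    exact lt_irrefl _ h'
  have hP : ∀ g : G, g ≠ 1 → (g ∈ P ↔ g⁻¹ ∉ P) := by
    intro g hg
    have hne : g ≠ g⁻¹ := by
      intro h
      apply hG g
      have h2 : g ^ 2 = 1 := by
        rw [pow_two]
        nth_rewrite 2 [h]
        exact mul_inv_cancel g
      exact orderOf_eq_prime h2 hg
    change g < g⁻¹ ↔ ¬ (g⁻¹ < g⁻¹⁻¹)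
    rw [inv_inv]
    rcases lt_or_gt_of_ne hne with h | h
    · exact ⟨fun _ => not_lt.2 h.le, fun _ => h⟩
    · exact ⟨fun h' => absurd h' (not_lt.2 h.le), fun h' => absurd h h'⟩
  refine ⟨Fin 3 ⊕ (Fin 4 × G), tour F P h1 hP,
    ⟨(MulEquiv.ofBijective (hom F P h1 hP)
      ⟨hom_injective F P h1 hP, hom_surjective F P h1 hP⟩).symm⟩, ?_⟩
  let q : ULift.{u} (Fin 3 ⊕ Fin 4) →
      MulAction.orbitRel.Quotient (tour F P h1 hP).Aut (Fin 3 ⊕ (Fin 4 × G)) := fun t =>
    Quotient.mk _ (Sum.map id (fun c => (c, (1 : G))) t.down)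
  have hq : Function.Surjective q := by
    intro z
    induction z using Quotient.inductionOn with
    | _ v =>
      rcases v with i | ⟨c, x⟩
      · exact ⟨⟨Sum.inl i⟩, rfl⟩
      · refine ⟨⟨Sum.inr c⟩, ?_⟩
        apply Quotient.sound
        refine ⟨hom F P h1 hP x⁻¹, ?_⟩
        change (Sum.inr (c, x⁻¹ * x) : Fin 3 ⊕ (Fin 4 × G)) = Sum.inr (c, 1)
        rw [inv_mul_cancel]
  have := Cardinal.mk_le_of_surjective hq
  refine this.trans (le_of_eq ?_)
  norm_num

end Pool.Agent.Results.MP_4ac3ef_co.SevenOrbits
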